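import Pool.Agent.H22.VM.Targets

/-!
# Module PR: existence of parameters (helper77)
-/

set_option autoImplicit false

namespace Pool.Agent.H77.VM

open Pool.Agent.H22.VM Filter Topology

/-- the exponents `σ_l` -/
noncomputable def sg (u : ℝ) (l : ℕ) : ℝ := if l = 0 then 0 else 1 + (1 - u) * (KK l - 1)

/-- the unperturbed weights -/
noncomputable def r0 (k : ℕ) (s u : ℝ) (l : ℕ) : ℝ :=
  if l = 0 then 0 else s - sg u l - sg u (k - l)

/-- the perturbed weights -/
noncomputable def rh (k : ℕ) (s u e δ : ℝ) (l : ℕ) : ℝ := r0 k s u l * (1 + e * δ ^ l)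

lemma KK_succ (l : ℕ) : KK (l + 1) = KK l + (l + 1) := by
  unfold KK; push_cast; ring

lemma KK_add (l m : ℕ) : KK (l + m) = KK l + KK m + l * m := by
  unfold KK; push_cast; ring

lemma KK_nonneg (l : ℕ) : 0 ≤ KK l := by
  unfold KK; positivity

lemma KK_one_le (l : ℕ) (hl : 1 ≤ l) : 1 ≤ KK l := by
  unfold KK
  have h : (1 : ℝ) ≤ l := by exact_mod_cast hl
  nlinarith

lemma sg_zero (u : ℝ) : sg u 0 = 0 := by simp [sg]

lemma sg_pos (u : ℝ) (l : ℕ) (hl : 1 ≤ l) : sg u l = 1 + (1 - u) * (KK l - 1) := by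
  unfold sg; rw [if_neg (by omega)]

lemma sg_one (u : ℝ) : sg u 1 = 1 := by
  rw [sg_pos u 1 le_rfl]; unfold KK; norm_num

lemma sg_succ (u : ℝ) (l : ℕ) (hl : 1 ≤ l) : sg u (l + 1) = sg u l + (1 - u) * (l + 1) := by
  rw [sg_pos u (l + 1) (by omega), sg_pos u l hl, KK_succ]; ring

lemma r0_zero (k : ℕ) (s u : ℝ) : r0 k s u 0 = 0 := by simp [r0]

lemma r0_pos (k : ℕ) (s u : ℝ) (l : ℕ) (hl : 1 ≤ l) : r0 k s u l = s - sg u l - sg u (k - l) := by
  unfold r0; rw [if_neg (by omega)]

/-- positivity of the gap -/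
lemma gap (k : ℕ) (s₀ u : ℝ) (l m : ℕ) (hl : 1 ≤ l) (hm : 1 ≤ m) (hk : k = l + m)
    (hu : 0 ≤ u) : (l : ℝ) * m - (KK k - s₀) ≤ s₀ - sg u l - sg u m := by
  rw [sg_pos u l hl, sg_pos u m hm]
  have h := KK_add l m
  have h1 := KK_one_le l hl
  have h2 := KK_one_le m hm
  subst hk
  rw [h]
  nlinarith [mul_nonneg hu (sub_nonneg.2 h1), mul_nonneg hu (sub_nonneg.2 h2)]

/-- strict inequality at `s₀`, `γ = 1`, `η = 0` -/
lemma strict (k : ℕ) (s₀ u : ℝ) (hk : 2 ≤ k)
    (hs : KK k - 1 < s₀ ∨ (3 ≤ k ∧ KK k - 1 ≤ s₀)) (hs' : s₀ < KK k)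
    (hu : u = (KK k - s₀) / (2 * KK k)) (l m : ℕ) (hl : 1 ≤ l) (hm : 1 ≤ m) (hlm : k = l + m) :
    rh k s₀ u u (1 / KK k) l <
      (sg u l - sg u (l - 1)) / (s₀ - sg u m - sg u (l - 1)) * (((m + 1 : ℕ) : ℝ) / (l : ℝ)) *
        rh k s₀ u u (1 / KK k) m +
      (1 - (sg u l - sg u (l - 1)) / (s₀ - sg u m - sg u (l - 1))) *
        rh k s₀ u u (1 / KK k) (l - 1) := by
  have hK : 3 ≤ KK k := by
    unfold KK
    have h : (2 : ℝ) ≤ k := by exact_mod_cast hk
    nlinarith
  have hKpos : 0 < KK k := by linarith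
  have hθ1 : KK k - s₀ ≤ 1 := by
    rcases hs with h | ⟨_, h⟩ <;> linarith
  have hupos : 0 < u := by
    rw [hu]; apply div_pos <;> linarith
  have huK : u * KK k = (KK k - s₀) / 2 := by
    rw [hu]; field_simp
  have hu1 : u < 1 := by
    by_contra hcon
    push Not at hcon
    nlinarith
  have hδpos : 0 < 1 / KK k := by positivity
  have hδ1 : 1 / KK k ≤ 1 := by
    rw [div_le_one hKpos]; linarith
  set δ := 1 / KK k with hδdef
  have hδK : δ * KK k = 1 := by rw [hδdef]; field_simp
  -- positivity of gap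
  have hg := gap k s₀ u l m hl hm hlm hupos.le
  have hRpos : 0 < s₀ - sg u l - sg u m := by
    refine lt_of_lt_of_le ?_ hg
    rcases hs with h | ⟨h3, h⟩
    · have : (1 : ℝ) ≤ (l : ℝ) * m := by
        have : 1 ≤ l * m := Nat.mul_pos hl hm
        exact_mod_cast this
      linarith
    · have : (2 : ℝ) ≤ (l : ℝ) * m := by
        have : 2 ≤ l * m := by
          rcases Nat.lt_or_ge l 2 with h1 | h1
          · have : l = 1 := by omega
            subst this; omega
          · calc 2 = 2 * 1 := by ring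
              _ ≤ l * m := Nat.mul_le_mul h1 hm
        exact_mod_cast this
      linarith
  have hrl : r0 k s₀ u l = s₀ - sg u l - sg u m := by
    rw [r0_pos k s₀ u l hl]; congr 2; omega
  have hrm : r0 k s₀ u m = s₀ - sg u l - sg u m := by
    rw [r0_pos k s₀ u m hm]
    have : k - m = l := by omega
    rw [this]; ring
  rcases Nat.lt_or_ge l 2 with h1 | h2
  · -- l = 1
    have hl1 : l = 1 := by omega
    subst hl1
    simp only [Nat.sub_self, sg_zero, sg_one, sub_zero, Nat.cast_one, div_one]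
    unfold rh
    rw [hrl, hrm, r0_zero]
    rw [sg_one] at *
    have hm1 : ((m + 1 : ℕ) : ℝ) = (k : ℝ) := by
      rw [hlm]; push_cast; ring
    rw [hm1]
    set R := s₀ - 1 - sg u m with hR
    have hD : s₀ - sg u m = R + 1 := by rw [hR]; ring
    rw [hD]
    have hDk : (R + 1) * (1 + u) < k := by
      have e1 : sg u m = 1 + (1 - u) * (KK m - 1) := sg_pos u m hm
      have e2 : KK k = KK m + k := by
        rw [hlm, KK_add]; unfold KK; push_cast; ring
      have e3 : 1 ≤ KK m := KK_one_le m hm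
      have hkpos : (0 : ℝ) ≤ k := by positivity
      have e4 : R + 1 ≤ KK k := by
        rw [hR, e1]; nlinarith [mul_nonneg (sub_nonneg.2 hu1.le) (sub_nonneg.2 e3)]
      have e5 : (R + 1) = s₀ - 1 - (1 - u) * (KK m - 1) := by rw [hR, e1]; ring
      have e6 : (R + 1) * (1 + u) = s₀ - 1 - (KK m - 1) + u * (KK m - 1) + u * (R + 1) := by
        rw [e5]; ring
      rw [e6]
      have e7 : u * (R + 1) ≤ u * (s₀ - 1 - (1-u) * (KK m - 1)) := by rw [e5]
      have e8 : u * ((KK m - 1) + (R + 1)) < u * KK k := by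
        apply mul_lt_mul_of_pos_left _ hupos
        rw [e5]
        have : u * (KK m - 1) ≤ u * KK k := by
          apply mul_le_mul_of_nonneg_left _ hupos.le
          linarith
        nlinarith
      nlinarith
    have hR1 : 0 < R + 1 := by linarith
    have hpow : 0 ≤ u * δ ^ m := by positivity
    have key : R * (1 + u * δ ^ 1) < 1 / (R + 1) * (k : ℝ) * (R * (1 + u * δ ^ m)) := by
      rw [pow_one]
      have k1 : R * (1 + u * δ) ≤ R * (1 + u) := by
        apply mul_le_mul_of_nonneg_left _ hRpos.le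
        nlinarith
      have k2 : R * (1 + u) < 1 / (R + 1) * (k : ℝ) * R := by
        rw [div_mul_eq_mul_div, one_mul, div_mul_eq_mul_div, lt_div_iff₀ hR1]
        nlinarith
      have k3 : 1 / (R + 1) * (k : ℝ) * R ≤ 1 / (R + 1) * (k : ℝ) * (R * (1 + u * δ ^ m)) := by
        apply mul_le_mul_of_nonneg_left _ (by positivity)
        nlinarith
      linarith
    linarith
  · -- l ≥ 2
    obtain ⟨n, rfl⟩ : ∃ n, l = n + 1 := ⟨l - 1, by omega⟩
    have hn : 1 ≤ n := by omega
    have hk3 : 3 ≤ k := by omega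
    simp only [Nat.add_sub_cancel]
    unfold rh
    rw [hrl, hrm]
    have hrn : r0 k s₀ u n = s₀ - sg u n - sg u (m + 1) := by
      rw [r0_pos k s₀ u n hn]; congr 2; omega
    have hg2 := gap k s₀ u n (m + 1) hn (by omega) (by omega) hupos.le
    have hQ1 : 1 ≤ s₀ - sg u n - sg u (m + 1) := by
      refine le_trans ?_ hg2
      have : (2 : ℝ) ≤ (n : ℝ) * ((m + 1 : ℕ) : ℝ) := by
        have : 2 ≤ n * (m + 1) := by
          calc 2 = 1 * 2 := by ring
            _ ≤ n * (m + 1) := Nat.mul_le_mul hn (by omega)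
        exact_mod_cast this
      linarith
    rw [hrn]
    set Q := s₀ - sg u n - sg u (m + 1) with hQ
    set R := s₀ - sg u (n + 1) - sg u m with hR
    have es : sg u (n + 1) = sg u n + (1 - u) * (n + 1) := sg_succ u n hn
    have em : sg u (m + 1) = sg u m + (1 - u) * (m + 1) := sg_succ u m hm
    set D := s₀ - sg u m - sg u n with hD
    have hDR : D = R + (1 - u) * (n + 1) := by rw [hD, hR, es]; ring
    have hDQ : D = (1 - u) * (m + 1) + Q := by rw [hD, hQ, em]; ring
    have hAn : 0 < (1 - u) * ((n : ℝ) + 1) := mul_pos (by linarith) (by positivity)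
    have hDpos : 0 < D := by rw [hDR]; linarith
    have hsgn : 0 ≤ sg u n := by
      rw [sg_pos u n hn]
      have := mul_nonneg (sub_nonneg.2 hu1.le) (sub_nonneg.2 (KK_one_le n hn))
      linarith
    have hsgm : 0 ≤ sg u m := by
      rw [sg_pos u m hm]
      have := mul_nonneg (sub_nonneg.2 hu1.le) (sub_nonneg.2 (KK_one_le m hm))
      linarith
    have hDK : D < KK k := by rw [hD]; linarith
    have hDδ : D * δ < Q := by
      calc D * δ < KK k * δ := mul_lt_mul_of_pos_right hDK hδpos
        _ = 1 := by rw [mul_comm]; exact hδK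
        _ ≤ Q := hQ1
    have eA : sg u (n + 1) - sg u n = (1 - u) * (n + 1) := by rw [es]; ring
    rw [eA]
    have hn1 : (0 : ℝ) < (n : ℝ) + 1 := by positivity
    have c1 : (1 - u) * ((n : ℝ) + 1) / D * (((m + 1 : ℕ) : ℝ) / ((n + 1 : ℕ) : ℝ)) =
        (1 - u) * (m + 1) / D := by
      push_cast; field_simp
    have c2 : 1 - (1 - u) * ((n : ℝ) + 1) / D = R / D := by
      rw [eq_div_iff hDpos.ne', sub_mul, div_mul_cancel₀ _ hDpos.ne', hDR]; ring
    rw [c1, c2]
    have hP : 0 ≤ (1 - u) * ((m : ℝ) + 1) := mul_nonneg (by linarith) (by positivity)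
    set P := (1 - u) * ((m : ℝ) + 1) with hPdef
    have target : D * (1 + u * δ ^ (n + 1)) < P * (1 + u * δ ^ m) + Q * (1 + u * δ ^ n) := by
      have t1 : D * (u * δ ^ (n + 1)) < Q * (u * δ ^ n) := by
        have : D * (u * δ ^ (n + 1)) = (D * δ) * (u * δ ^ n) := by ring
        rw [this]
        exact mul_lt_mul_of_pos_right hDδ (by positivity)
      have t2 : 0 ≤ P * (u * δ ^ m) := by positivity
      nlinarith
    have fin : P / D * (R * (1 + u * δ ^ m)) + R / D * (Q * (1 + u * δ ^ n)) =
        R / D * (P * (1 + u * δ ^ m) + Q * (1 + u * δ ^ n)) := by ring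
    rw [fin]
    calc R * (1 + u * δ ^ (n + 1)) = R / D * (D * (1 + u * δ ^ (n + 1))) := by
          field_simp
      _ < _ := mul_lt_mul_of_pos_left target (by positivity)

theorem pr : T_PR := by
  intro k s₀ hk hs hs'
  have hK : 3 ≤ KK k := by
    unfold KK
    have h : (2 : ℝ) ≤ k := by exact_mod_cast hk
    nlinarith
  have hKpos : 0 < KK k := by linarith
  have hθ1 : KK k - s₀ ≤ 1 := by
    rcases hs with h | ⟨_, h⟩ <;> linarith
  obtain ⟨u, hu⟩ : ∃ u, u = (KK k - s₀) / (2 * KK k) := ⟨_, rfl⟩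
  have hupos : 0 < u := by
    rw [hu]; apply div_pos <;> linarith
  have huK : u * KK k = (KK k - s₀) / 2 := by
    rw [hu]; field_simp
  have hu1 : u < 1 := by
    by_contra hcon
    push Not at hcon
    nlinarith
  have hmono : ∀ l : ℕ, l < k → KK l ≤ KK k - k := by
    intro l hl
    obtain ⟨m, rfl⟩ : ∃ m, k = l + 1 + m := ⟨k - (l + 1), by omega⟩
    unfold KK
    push_cast
    have h1 : (0 : ℝ) ≤ (l : ℝ) := by positivity
    have h2 : (0 : ℝ) ≤ (m : ℝ) := by positivity
    nlinarith
  refine ⟨sg u, sg_one u, ?_, ?_⟩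
  · intro l hl2 hlk
    rw [sg_pos u l (by omega)]
    have h1 := hmono l hlk
    have h3 : 3 ≤ KK l := by
      unfold KK
      have h : (2 : ℝ) ≤ l := by exact_mod_cast hl2
      nlinarith
    have h4 : u * (KK l - 1) ≤ u * KK k := by
      apply mul_le_mul_of_nonneg_left _ hupos.le
      have : (0 : ℝ) ≤ k := by positivity
      linarith
    have h5 : 0 < u * (KK l - 1) := by apply mul_pos hupos; linarith
    constructor <;> nlinarith
  · intro c' hc'
    -- continuity
    set δ := 1 / KK k with hδdef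
    have hδpos : 0 < δ := by rw [hδdef]; positivity
    let ρ : ℕ → ℝ := rh k s₀ u u δ
    let g : ℕ → ℝ × ℝ × ℝ → ℝ := fun l x =>
      wt k (sg u) x.1 l * (((k - l + 1 : ℕ) : ℝ) / (l : ℝ)) ^ x.2.1 * ρ (k - l) +
      (1 - wt k (sg u) x.1 l) * ρ (l - 1) - (1 + x.2.2) * ρ l
    have hgap : ∀ l : ℕ, 1 ≤ l → l < k → 0 < s₀ - sg u (k - l) - sg u l := by
      intro l hl hlk
      have hg := gap k s₀ u l (k - l) hl (by omega) (by omega) hupos.le
      have : 0 < s₀ - sg u l - sg u (k - l) := by
        refine lt_of_lt_of_le ?_ hg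
        rcases hs with h | ⟨h3, h⟩
        · have : (1 : ℝ) ≤ (l : ℝ) * ((k - l : ℕ) : ℝ) := by
            have : 1 ≤ l * (k - l) := Nat.mul_pos hl (by omega)
            exact_mod_cast this
          linarith
        · have : (2 : ℝ) ≤ (l : ℝ) * ((k - l : ℕ) : ℝ) := by
            have : 2 ≤ l * (k - l) := by
              rcases Nat.lt_or_ge l 2 with h1 | h1
              · have : l = 1 := by omega
                subst this; omega
              · calc 2 = 2 * 1 := by ring
                  _ ≤ l * (k - l) := Nat.mul_le_mul h1 (by omega)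
            exact_mod_cast this
          linarith
      linarith
    have hinc : ∀ l : ℕ, 1 ≤ l → 0 < sg u l - sg u (l - 1) := by
      intro l hl
      rcases Nat.lt_or_ge l 2 with h1 | h1
      · have : l = 1 := by omega
        subst this
        simp [sg_one, sg_zero]
      · obtain ⟨n, rfl⟩ : ∃ n, l = n + 1 := ⟨l - 1, by omega⟩
        simp only [Nat.add_sub_cancel]
        rw [sg_succ u n (by omega)]
        have : 0 < (1 - u) * ((n : ℝ) + 1) := mul_pos (by linarith) (by positivity)
        linarith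
    have hgpos : ∀ l ∈ Finset.Ico 1 k, 0 < g l (s₀, 1, 0) := by
      intro l hl
      rw [Finset.mem_Ico] at hl
      have := strict k s₀ u hk hs hs' hu l (k - l) hl.1 (by omega) (by omega)
      show 0 < wt k (sg u) s₀ l * (((k - l + 1 : ℕ) : ℝ) / (l : ℝ)) ^ (1 : ℝ) * ρ (k - l) +
        (1 - wt k (sg u) s₀ l) * ρ (l - 1) - (1 + 0) * ρ l
      rw [Real.rpow_one]
      unfold wt
      linarith
    have hcont : ∀ l ∈ Finset.Ico 1 k, ContinuousAt (g l) (s₀, 1, 0) := by
      intro l hl
      rw [Finset.mem_Ico] at hl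
      have hden : s₀ - sg u (k - l) - sg u (l - 1) ≠ 0 := by
        have h1 := hgap l hl.1 hl.2
        have h2 := hinc l hl.1
        apply ne_of_gt; linarith
      have hbase : (((k - l + 1 : ℕ) : ℝ) / (l : ℝ)) ≠ 0 := by
        have : (0 : ℝ) < ((k - l + 1 : ℕ) : ℝ) := by positivity
        have h2 : (0 : ℝ) < l := by exact_mod_cast hl.1
        positivity
      have hw : ContinuousAt (fun x : ℝ × ℝ × ℝ => wt k (sg u) x.1 l) (s₀, 1, 0) := by
        unfold wt
        have hd : ContinuousAt (fun x : ℝ × ℝ × ℝ => x.1 - sg u (k - l) - sg u (l - 1))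
            (s₀, 1, 0) :=
          ((continuous_fst.continuousAt.sub continuousAt_const).sub continuousAt_const)
        exact ContinuousAt.div continuousAt_const hd hden
      have hp : ContinuousAt (fun x : ℝ × ℝ × ℝ => (((k - l + 1 : ℕ) : ℝ) / (l : ℝ)) ^ x.2.1)
          (s₀, 1, 0) := by
        apply ContinuousAt.rpow continuousAt_const _ (Or.inl hbase)
        exact (continuous_fst.comp continuous_snd).continuousAt
      have hη : ContinuousAt (fun x : ℝ × ℝ × ℝ => x.2.2) (s₀, 1, 0) :=
        (continuous_snd.comp continuous_snd).continuousAt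
      exact (((hw.mul hp).mul continuousAt_const).add
        ((continuousAt_const.sub hw).mul continuousAt_const)).sub
        ((continuousAt_const.add hη).mul continuousAt_const)
    have hev : ∀ᶠ x in 𝓝 ((s₀, 1, 0) : ℝ × ℝ × ℝ), ∀ l ∈ Finset.Ico 1 k, 0 < g l x := by
      rw [Filter.eventually_all_finset]
      intro l hl
      exact (hcont l hl).eventually (lt_mem_nhds (hgpos l hl))
    obtain ⟨r, hr, hball⟩ := Metric.eventually_nhds_iff.1 hev
    have hm0 : 0 < min r (min (1 - c') 1) := lt_min hr (lt_min (by linarith) one_pos)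
    set t := min r (min (1 - c') 1) / 2 with ht
    have ht0 : 0 < t := by rw [ht]; linarith
    have htr : t < r := by
      have := min_le_left r (min (1 - c') 1)
      rw [ht]; linarith
    have htc : t < 1 - c' := by
      have := (min_le_right r (min (1 - c') 1)).trans (min_le_left (1 - c') 1)
      rw [ht]; linarith
    have ht1 : t < 1 := by
      have := (min_le_right r (min (1 - c') 1)).trans (min_le_right (1 - c') 1)
      rw [ht]; linarith
    refine ⟨1 - t, by linarith, by linarith, by linarith, ρ, t, t, ht0, ht0, ?_⟩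
    intro s hs1 hs2
    refine ⟨sg_zero u, sg_one u, ?_, ?_⟩
    · show rh k s₀ u u δ 0 = 0
      unfold rh; rw [r0_zero]; ring
    · intro l hl hlk
      have hgl := hgap l hl hlk
      have hil := hinc l hl
      refine ⟨?_, ?_, ?_, hil, by linarith, ?_⟩
      · show 0 < rh k s₀ u u δ l
        unfold rh
        rw [r0_pos k s₀ u l hl]
        apply mul_pos (by linarith)
        positivity
      · rw [sg_pos u l hl]
        have := mul_nonneg (sub_nonneg.2 hu1.le) (sub_nonneg.2 (KK_one_le l hl))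
        linarith
      · rw [sg_pos u l hl]
        have h1 := hmono l hlk
        have h2 : (2 : ℝ) ≤ k := by exact_mod_cast hk
        have h3 := mul_nonneg hupos.le (sub_nonneg.2 (KK_one_le l hl))
        nlinarith
      · have hd : dist ((s, 1 - t, t) : ℝ × ℝ × ℝ) (s₀, 1, 0) < r := by
          rw [Prod.dist_eq, Prod.dist_eq]
          simp only [Real.dist_eq]
          apply max_lt
          · rw [abs_lt]; constructor <;> linarith
          · apply max_lt
            · rw [abs_lt]; constructor <;> linarith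
            · rw [abs_lt]; constructor <;> linarith
        have := hball hd l (Finset.mem_Ico.2 ⟨hl, hlk⟩)
        have h0 : 0 < wt k (sg u) s l * (((k - l + 1 : ℕ) : ℝ) / (l : ℝ)) ^ (1 - t) * ρ (k - l) +
          (1 - wt k (sg u) s l) * ρ (l - 1) - (1 + t) * ρ l := this
        linarith

end Pool.Agent.H77.VM
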